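import Mathlib

namespace Pool.Agent.H.MP_7e2005_co

/-- `[0,s]_± A`: all integer combinations of the elements of `A` whose coefficients have
absolute values summing to at most `s`. -/
def signedSpan {G : Type*} [AddCommGroup G] (A : Finset G) (s : ℕ) : Set G :=
  {g | ∃ c : G → ℤ, ∑ a ∈ A, |c a| ≤ (s : ℤ) ∧ ∑ a ∈ A, c a • a = g}

/-- `φ_±(G,[0,s])`: the least size of a finite subset `A` of `G` with `[0,s]_± A = G`. -/
noncomputable def phi (G : Type*) [AddCommGroup G] (s : ℕ) : ℕ :=
  sInf {m : ℕ | ∃ A : Finset G, A.card = m ∧ signedSpan A s = Set.univ}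

end Pool.Agent.H.MP_7e2005_co
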