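import Mathlib
import Pool.Agent.H.MP_7e2005_co.Defs

namespace Pool.Agent.H.MP_7e2005_co

/-- The two-generator form of `s`-spanning, in integer coordinates. -/
def IntSpan (m k : ℕ) (s : ℤ) : Prop :=
  ∃ A1 A2 B1 B2 : ℤ, ∀ G1 G2 : ℤ, ∃ x y : ℤ, |x| + |y| ≤ s ∧
    (m : ℤ) ∣ x * A1 + y * B1 - G1 ∧ (m * k : ℤ) ∣ x * A2 + y * B2 - G2

lemma span_iff_int (m k : ℕ) (s : ℕ) :
    (∃ a b : ZMod m × ZMod (m * k), ∀ g, ∃ x y : ℤ, |x| + |y| ≤ (s : ℤ) ∧ x • a + y • b = g) ↔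
      IntSpan m k s := by
  constructor
  · rintro ⟨a, b, h⟩
    obtain ⟨A1, hA1⟩ := ZMod.intCast_surjective a.1
    obtain ⟨A2, hA2⟩ := ZMod.intCast_surjective a.2
    obtain ⟨B1, hB1⟩ := ZMod.intCast_surjective b.1
    obtain ⟨B2, hB2⟩ := ZMod.intCast_surjective b.2
    refine ⟨A1, A2, B1, B2, fun G1 G2 => ?_⟩
    obtain ⟨x, y, hs, he⟩ := h ((G1 : ZMod m), (G2 : ZMod (m * k)))
    refine ⟨x, y, hs, ?_, ?_⟩
    · have h1 := congrArg Prod.fst he
      rw [Prod.fst_add, Prod.smul_fst, Prod.smul_fst, zsmul_eq_mul, zsmul_eq_mul, ← hA1,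
        ← hB1] at h1
      rw [← ZMod.intCast_zmod_eq_zero_iff_dvd]
      push_cast
      rw [h1]; ring
    · have h2 := congrArg Prod.snd he
      rw [Prod.snd_add, Prod.smul_snd, Prod.smul_snd, zsmul_eq_mul, zsmul_eq_mul, ← hA2,
        ← hB2] at h2
      have : ((m * k : ℕ) : ℤ) ∣ x * A2 + y * B2 - G2 := by
        rw [← ZMod.intCast_zmod_eq_zero_iff_dvd]
        push_cast
        rw [h2]; ring
      simpa using this
  · rintro ⟨A1, A2, B1, B2, h⟩
    refine ⟨((A1 : ZMod m), (A2 : ZMod (m * k))), ((B1 : ZMod m), (B2 : ZMod (m * k))), ?_⟩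
    rintro ⟨g1, g2⟩
    obtain ⟨G1, hG1⟩ := ZMod.intCast_surjective g1
    obtain ⟨G2, hG2⟩ := ZMod.intCast_surjective g2
    obtain ⟨x, y, hs, h1, h2⟩ := h G1 G2
    refine ⟨x, y, hs, ?_⟩
    have h2' : ((m * k : ℕ) : ℤ) ∣ x * A2 + y * B2 - G2 := by simpa using h2
    rw [← ZMod.intCast_zmod_eq_zero_iff_dvd] at h1 h2'
    push_cast at h1 h2'
    ext
    · rw [Prod.fst_add, Prod.smul_fst, Prod.smul_fst, zsmul_eq_mul, zsmul_eq_mul]
      simp only [← hG1]
      exact sub_eq_zero.mp h1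
    · rw [Prod.snd_add, Prod.smul_snd, Prod.smul_snd, zsmul_eq_mul, zsmul_eq_mul]
      simp only [← hG2]
      exact sub_eq_zero.mp h2'

/-- `ZMod m × ZMod (m * k)` is not generated by one element. -/
lemma not_cyclic (m k : ℕ) (hm : 2 ≤ m) (a : ZMod m × ZMod (m * k))
    (h : ∀ g, ∃ x : ℤ, x • a = g) : False := by
  obtain ⟨A1, hA1⟩ := ZMod.intCast_surjective a.1
  obtain ⟨A2, hA2⟩ := ZMod.intCast_surjective a.2
  obtain ⟨x, hx⟩ := h (1, 0)
  obtain ⟨y, hy⟩ := h (0, 1)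
  have hx1 := congrArg Prod.fst hx
  have hx2 := congrArg Prod.snd hx
  have hy1 := congrArg Prod.fst hy
  have hy2 := congrArg Prod.snd hy
  rw [Prod.smul_fst, zsmul_eq_mul, ← hA1] at hx1 hy1
  rw [Prod.smul_snd, zsmul_eq_mul, ← hA2] at hx2 hy2
  have e1 : (m : ℤ) ∣ x * A1 - 1 := by
    rw [← ZMod.intCast_zmod_eq_zero_iff_dvd]; push_cast; rw [hx1]; simp
  have e2 : ((m * k : ℕ) : ℤ) ∣ x * A2 := by
    rw [← ZMod.intCast_zmod_eq_zero_iff_dvd]; push_cast; rw [hx2]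
  have e3 : (m : ℤ) ∣ y * A1 := by
    rw [← ZMod.intCast_zmod_eq_zero_iff_dvd]; push_cast; rw [hy1]
  have e4 : ((m * k : ℕ) : ℤ) ∣ y * A2 - 1 := by
    rw [← ZMod.intCast_zmod_eq_zero_iff_dvd]; push_cast; rw [hy2]; simp
  have e2' : (m : ℤ) ∣ x * A2 := dvd_trans ⟨(k : ℤ), by push_cast; ring⟩ e2
  have e4' : (m : ℤ) ∣ y * A2 - 1 := dvd_trans ⟨(k : ℤ), by push_cast; ring⟩ e4
  have : (m : ℤ) ∣ 1 := by
    obtain ⟨c1, hc1⟩ := e1
    obtain ⟨c2, hc2⟩ := e2'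
    obtain ⟨c3, hc3⟩ := e3
    obtain ⟨c4, hc4⟩ := e4'
    refine ⟨c3 * (x * A2) - c1 * (y * A2) - c4, ?_⟩
    linear_combination (-(y * A2)) * hc1 - hc4 + (x * A2) * hc3
  have h1 : (m : ℤ) ≤ 1 := Int.le_of_dvd one_pos this
  omega

lemma phi_eq_two_iff (m k : ℕ) (hm : 2 ≤ m) (s : ℕ) :
    phi (ZMod m × ZMod (m * k)) s = 2 ↔ IntSpan m k s := by
  rw [← span_iff_int]
  constructor
  · intro h
    have hne : {n : ℕ | ∃ A : Finset (ZMod m × ZMod (m * k)), A.card = n ∧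
        signedSpan A s = Set.univ}.Nonempty := by
      by_contra hcon
      rw [Set.not_nonempty_iff_eq_empty] at hcon
      rw [phi, hcon] at h
      simp at h
    have hmem := Nat.sInf_mem hne
    rw [phi] at h
    rw [h] at hmem
    obtain ⟨A, hA, hspan⟩ := hmem
    obtain ⟨a, b, hab, rfl⟩ := Finset.card_eq_two.mp hA
    refine ⟨a, b, fun g => ?_⟩
    have : g ∈ signedSpan {a, b} s := by rw [hspan]; trivial
    obtain ⟨c, hc, hg⟩ := this
    rw [Finset.sum_pair hab] at hc hg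
    exact ⟨c a, c b, hc, hg⟩
  · rintro ⟨a, b, h⟩
    have hab : a ≠ b := by
      rintro rfl
      refine not_cyclic m k hm a (fun g => ?_)
      obtain ⟨x, y, -, hg⟩ := h g
      exact ⟨x + y, by rw [add_zsmul, hg]⟩
    have hmem : 2 ∈ {n : ℕ | ∃ A : Finset (ZMod m × ZMod (m * k)), A.card = n ∧
        signedSpan A s = Set.univ} := by
      refine ⟨{a, b}, Finset.card_pair hab, ?_⟩
      rw [Set.eq_univ_iff_forall]
      intro g
      obtain ⟨x, y, hs, hg⟩ := h g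
      refine ⟨fun z => if z = a then x else y, ?_, ?_⟩
      · rw [Finset.sum_pair hab]
        simpa [hab.symm] using hs
      · rw [Finset.sum_pair hab]
        simpa [hab.symm] using hg
    have hle : phi (ZMod m × ZMod (m * k)) s ≤ 2 := Nat.sInf_le hmem
    have hmem' := Nat.sInf_mem ⟨2, hmem⟩
    obtain ⟨A, hA, hspan⟩ := hmem'
    change A.card = phi (ZMod m × ZMod (m * k)) s at hA
    rw [← hA] at hle ⊢
    by_contra hne
    have hlt : A.card < 2 := by omega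
    have hcases : A.card = 0 ∨ A.card = 1 := by omega
    rcases hcases with h0 | h1
    · rw [Finset.card_eq_zero] at h0
      subst h0
      refine not_cyclic m k hm 0 (fun g => ?_)
      have : g ∈ signedSpan (∅ : Finset (ZMod m × ZMod (m * k))) s := by rw [hspan]; trivial
      obtain ⟨c, -, hg⟩ := this
      refine ⟨0, ?_⟩
      simpa using hg
    · obtain ⟨a', rfl⟩ := Finset.card_eq_one.mp h1
      refine not_cyclic m k hm a' (fun g => ?_)
      have : g ∈ signedSpan {a'} s := by rw [hspan]; trivial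
      obtain ⟨c, -, hg⟩ := this
      refine ⟨c a', ?_⟩
      simpa using hg

end Pool.Agent.H.MP_7e2005_co
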