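import Mathlib
import Pool.Agent.H.MP_7e2005_co.Base

namespace Pool.Agent.H.MP_7e2005_co

lemma abs_four {a b s : ℤ} :
    |a| + |b| ≤ s ↔ a + b ≤ s ∧ -a - b ≤ s ∧ a - b ≤ s ∧ b - a ≤ s := by
  constructor
  · intro h
    have h1 := le_abs_self a
    have h2 := le_abs_self b
    have h3 := neg_abs_le a
    have h4 := neg_abs_le b
    refine ⟨?_, ?_, ?_, ?_⟩ <;> linarith
  · rintro ⟨h1, h2, h3, h4⟩
    rcases abs_cases a with ⟨ha, _⟩ | ⟨ha, _⟩ <;> rcases abs_cases b with ⟨hb, _⟩ | ⟨hb, _⟩ <;>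
      rw [ha, hb] <;> linarith

/-- From a spanning pair: all residue classes mod `m` are usable. -/
lemma nec (m k : ℕ) (s : ℤ) (hm : 1 ≤ m) (h : IntSpan m k s) :
    ∃ α β : ℤ, ∀ e1 e2 G : ℤ, ∃ z1 z2 : ℤ,
      |(m : ℤ) * z1 + e1| + |(m : ℤ) * z2 + e2| ≤ s ∧ (k : ℤ) ∣ z1 * α + z2 * β - G := by
  obtain ⟨A1, A2, B1, B2, h⟩ := h
  refine ⟨A2, B2, fun e1 e2 G => ?_⟩
  obtain ⟨x1, y1, -, ⟨c1, hc1⟩, ⟨c2, hc2⟩⟩ := h 1 0
  obtain ⟨x2, y2, -, ⟨c3, hc3⟩, ⟨c4, hc4⟩⟩ := h 0 1
  obtain ⟨x, y, hs, ⟨c5, hc5⟩, ⟨c6, hc6⟩⟩ := h (e1 * A1 + e2 * B1) (e1 * A2 + e2 * B2 + m * G)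
  have hmpos : (0 : ℤ) < m := by exact_mod_cast hm
  -- determinant is invertible modulo m
  have hDE : (m : ℤ) ∣ (A1 * B2 - A2 * B1) * (x1 * y2 - x2 * y1) - 1 := by
    refine ⟨c1 * (x2 * A2 + y2 * B2) + k * c4 - c2 * k * (x2 * A1 + y2 * B1), ?_⟩
    have e1 : x1 * A1 + y1 * B1 = 1 + m * c1 := by linarith
    have e2 : x1 * A2 + y1 * B2 = m * k * c2 := by linarith
    have e4 : x2 * A2 + y2 * B2 = 1 + m * k * c4 := by linarith
    have key : (A1 * B2 - A2 * B1) * (x1 * y2 - x2 * y1) =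
        (x1 * A1 + y1 * B1) * (x2 * A2 + y2 * B2) - (x1 * A2 + y1 * B2) * (x2 * A1 + y2 * B1) := by
      ring
    rw [key, e1, e2]
    linear_combination e4
  have hX1 : (m : ℤ) ∣ (x - e1) * A1 + (y - e2) * B1 := ⟨c5, by linarith⟩
  have hX2 : (m : ℤ) ∣ (x - e1) * A2 + (y - e2) * B2 :=
    ⟨k * c6 + G, by linear_combination hc6⟩
  have hDX : (m : ℤ) ∣ (A1 * B2 - A2 * B1) * (x - e1) := by
    have : (A1 * B2 - A2 * B1) * (x - e1) =
      B2 * ((x - e1) * A1 + (y - e2) * B1) - B1 * ((x - e1) * A2 + (y - e2) * B2) := by ring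
    rw [this]
    exact dvd_sub (Dvd.dvd.mul_left hX1 _) (Dvd.dvd.mul_left hX2 _)
  have hDY : (m : ℤ) ∣ (A1 * B2 - A2 * B1) * (y - e2) := by
    have : (A1 * B2 - A2 * B1) * (y - e2) =
      A1 * ((x - e1) * A2 + (y - e2) * B2) - A2 * ((x - e1) * A1 + (y - e2) * B1) := by ring
    rw [this]
    exact dvd_sub (Dvd.dvd.mul_left hX2 _) (Dvd.dvd.mul_left hX1 _)
  have hX : (m : ℤ) ∣ x - e1 := by
    have : x - e1 = (x1 * y2 - x2 * y1) * ((A1 * B2 - A2 * B1) * (x - e1)) -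
      (x - e1) * ((A1 * B2 - A2 * B1) * (x1 * y2 - x2 * y1) - 1) := by ring
    rw [this]
    exact dvd_sub (Dvd.dvd.mul_left hDX _) (Dvd.dvd.mul_left hDE _)
  have hY : (m : ℤ) ∣ y - e2 := by
    have : y - e2 = (x1 * y2 - x2 * y1) * ((A1 * B2 - A2 * B1) * (y - e2)) -
      (y - e2) * ((A1 * B2 - A2 * B1) * (x1 * y2 - x2 * y1) - 1) := by ring
    rw [this]
    exact dvd_sub (Dvd.dvd.mul_left hDY _) (Dvd.dvd.mul_left hDE _)
  obtain ⟨z1, hz1⟩ := hX
  obtain ⟨z2, hz2⟩ := hY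
  refine ⟨z1, z2, ?_, ?_⟩
  · have e1 : (m : ℤ) * z1 + e1 = x := by linarith
    have e2 : (m : ℤ) * z2 + e2 = y := by linarith
    rw [e1, e2]
    exact hs
  · refine ⟨c6, ?_⟩
    have hx : x = m * z1 + e1 := by linarith
    have hy : y = m * z2 + e2 := by linarith
    rw [hx, hy] at hc6
    have : (m : ℤ) * (z1 * A2 + z2 * B2 - G) = m * (k * c6) := by linear_combination hc6
    exact mul_left_cancel₀ hmpos.ne' this

/-- Sufficient condition for spanning. -/
lemma suf (m k : ℕ) (s : ℤ) (A B : ℤ) (hAB : IsCoprime A B)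
    (h : ∀ x y : ℤ, ∃ z1 z2 : ℤ, |(m : ℤ) * z1 + x| + |(m : ℤ) * z2 + y| ≤ s ∧
      (k : ℤ) ∣ z1 * A + z2 * B) : IntSpan m k s := by
  obtain ⟨a, b, hab⟩ := hAB
  refine ⟨b, A, -a, B, fun G1 G2 => ?_⟩
  obtain ⟨z1, z2, hs, ⟨c, hc⟩⟩ := h (B * G1 + a * G2) (-A * G1 + b * G2)
  refine ⟨_, _, hs, ⟨z1 * b - z2 * a, ?_⟩, ⟨c, ?_⟩⟩
  · linear_combination G1 * hab
  · linear_combination G2 * hab + m * hc

lemma count_le (k : ℕ) (hk : 1 ≤ k) (a b c d : ℕ) (F1 F2 : ℕ → ℕ → ℤ)
    (h : ∀ G : ℤ, (∃ i < a, ∃ j < b, (k : ℤ) ∣ F1 i j - G) ∨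
      (∃ i < c, ∃ j < d, (k : ℤ) ∣ F2 i j - G)) : k ≤ a * b + c * d := by
  have : NeZero k := ⟨by omega⟩
  classical
  let S1 : Finset (ZMod k) := (Finset.range a ×ˢ Finset.range b).image
    (fun p => ((F1 p.1 p.2 : ℤ) : ZMod k))
  let S2 : Finset (ZMod k) := (Finset.range c ×ˢ Finset.range d).image
    (fun p => ((F2 p.1 p.2 : ℤ) : ZMod k))
  have huniv : (Finset.univ : Finset (ZMod k)) ⊆ S1 ∪ S2 := by
    intro g _
    obtain ⟨G, hG⟩ := ZMod.intCast_surjective g
    rw [Finset.mem_union]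
    rcases h G with ⟨i, hi, j, hj, hd⟩ | ⟨i, hi, j, hj, hd⟩
    · left
      refine Finset.mem_image.mpr ⟨(i, j), by simp [hi, hj], ?_⟩
      rw [← ZMod.intCast_zmod_eq_zero_iff_dvd] at hd
      push_cast at hd
      rw [← hG]
      exact sub_eq_zero.mp hd
    · right
      refine Finset.mem_image.mpr ⟨(i, j), by simp [hi, hj], ?_⟩
      rw [← ZMod.intCast_zmod_eq_zero_iff_dvd] at hd
      push_cast at hd
      rw [← hG]
      exact sub_eq_zero.mp hd
  calc k = (Finset.univ : Finset (ZMod k)).card := by rw [Finset.card_univ, ZMod.card]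
    _ ≤ (S1 ∪ S2).card := Finset.card_le_card huniv
    _ ≤ S1.card + S2.card := Finset.card_union_le _ _
    _ ≤ a * b + c * d := by
        apply Nat.add_le_add
        · refine Finset.card_image_le.trans ?_
          simp
        · refine Finset.card_image_le.trans ?_
          simp

/-- Covering by the box with corner `(u0, v0)` and side `n` in the coordinates
`u = z1 + z2`, `v = z1 - z2`. -/
def Box (k : ℕ) (α β n u0 v0 : ℤ) : Prop :=
  ∀ G : ℤ, ∃ z1 z2 : ℤ, u0 ≤ z1 + z2 ∧ z1 + z2 < u0 + n ∧ v0 ≤ z1 - z2 ∧ z1 - z2 < v0 + n ∧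
    (k : ℤ) ∣ z1 * α + z2 * β - G

lemma count_odd (k p : ℕ) (hk : 1 ≤ k) (α β : ℤ) (h : Box k α β (2 * p + 1) (-p - 1) (-p)) :
    k ≤ 2 * p ^ 2 + 2 * p := by
  have := count_le k hk (p + 1) p p (p + 1)
    (fun i j => ((i : ℤ) + j - p) * α + ((j : ℤ) - i) * β)
    (fun i j => ((i : ℤ) + j - p) * α + ((j : ℤ) - i - 1) * β) (by
      intro G
      obtain ⟨z1, z2, h1, h2, h3, h4, hd⟩ := h G
      rcases Int.even_or_odd (z1 - z2 + p) with ⟨i, hi⟩ | ⟨i, hi⟩
      · left
        obtain ⟨j, hj⟩ : ∃ j : ℤ, z1 + z2 = 2 * j - p := ⟨z2 + i, by omega⟩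
        refine ⟨i.toNat, by omega, j.toNat, by omega, ?_⟩
        have e1 : (i.toNat : ℤ) = i := Int.toNat_of_nonneg (by omega)
        have e2 : (j.toNat : ℤ) = j := Int.toNat_of_nonneg (by omega)
        simp only [e1, e2]
        have f1 : i + j - p = z1 := by omega
        have f2 : j - i = z2 := by omega
        rw [f1, f2]; exact hd
      · right
        obtain ⟨j, hj⟩ : ∃ j : ℤ, z1 + z2 = 2 * j - p - 1 := ⟨z2 + i + 1, by omega⟩
        refine ⟨i.toNat, by omega, j.toNat, by omega, ?_⟩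
        have e1 : (i.toNat : ℤ) = i := Int.toNat_of_nonneg (by omega)
        have e2 : (j.toNat : ℤ) = j := Int.toNat_of_nonneg (by omega)
        simp only [e1, e2]
        have f1 : i + j - p = z1 := by omega
        have f2 : j - i - 1 = z2 := by omega
        rw [f1, f2]; exact hd)
  nlinarith [this]

lemma count_ball (k p : ℕ) (hk : 1 ≤ k) (α β : ℤ) (h : Box k α β (2 * p + 1) (-p) (-p)) :
    k ≤ 2 * p ^ 2 + 2 * p + 1 := by
  have := count_le k hk (p + 1) (p + 1) p p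
    (fun i j => ((i : ℤ) + j - p) * α + ((j : ℤ) - i) * β)
    (fun i j => ((i : ℤ) + j + 1 - p) * α + ((j : ℤ) - i) * β) (by
      intro G
      obtain ⟨z1, z2, h1, h2, h3, h4, hd⟩ := h G
      rcases Int.even_or_odd (z1 - z2 + p) with ⟨i, hi⟩ | ⟨i, hi⟩
      · left
        obtain ⟨j, hj⟩ : ∃ j : ℤ, z1 + z2 = 2 * j - p := ⟨z2 + i, by omega⟩
        refine ⟨i.toNat, by omega, j.toNat, by omega, ?_⟩
        have e1 : (i.toNat : ℤ) = i := Int.toNat_of_nonneg (by omega)
        have e2 : (j.toNat : ℤ) = j := Int.toNat_of_nonneg (by omega)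
        simp only [e1, e2]
        have f1 : i + j - p = z1 := by omega
        have f2 : j - i = z2 := by omega
        rw [f1, f2]; exact hd
      · right
        obtain ⟨j, hj⟩ : ∃ j : ℤ, z1 + z2 = 2 * j + 1 - p := ⟨z2 + i, by omega⟩
        refine ⟨i.toNat, by omega, j.toNat, by omega, ?_⟩
        have e1 : (i.toNat : ℤ) = i := Int.toNat_of_nonneg (by omega)
        have e2 : (j.toNat : ℤ) = j := Int.toNat_of_nonneg (by omega)
        simp only [e1, e2]
        have f1 : i + j + 1 - p = z1 := by omega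
        have f2 : j - i = z2 := by omega
        rw [f1, f2]; exact hd)
  nlinarith [this]

lemma count_even (k p : ℕ) (hk : 1 ≤ k) (α β : ℤ) (h : Box k α β (2 * p) (-p) (-p)) :
    k ≤ 2 * p ^ 2 := by
  have := count_le k hk p p p p
    (fun i j => ((i : ℤ) + j - p) * α + ((j : ℤ) - i) * β)
    (fun i j => ((i : ℤ) + j + 1 - p) * α + ((j : ℤ) - i) * β) (by
      intro G
      obtain ⟨z1, z2, h1, h2, h3, h4, hd⟩ := h G
      rcases Int.even_or_odd (z1 - z2 + p) with ⟨i, hi⟩ | ⟨i, hi⟩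
      · left
        obtain ⟨j, hj⟩ : ∃ j : ℤ, z1 + z2 = 2 * j - p := ⟨z2 + i, by omega⟩
        refine ⟨i.toNat, by omega, j.toNat, by omega, ?_⟩
        have e1 : (i.toNat : ℤ) = i := Int.toNat_of_nonneg (by omega)
        have e2 : (j.toNat : ℤ) = j := Int.toNat_of_nonneg (by omega)
        simp only [e1, e2]
        have f1 : i + j - p = z1 := by omega
        have f2 : j - i = z2 := by omega
        rw [f1, f2]; exact hd
      · right
        obtain ⟨j, hj⟩ : ∃ j : ℤ, z1 + z2 = 2 * j + 1 - p := ⟨z2 + i, by omega⟩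
        refine ⟨i.toNat, by omega, j.toNat, by omega, ?_⟩
        have e1 : (i.toNat : ℤ) = i := Int.toNat_of_nonneg (by omega)
        have e2 : (j.toNat : ℤ) = j := Int.toNat_of_nonneg (by omega)
        simp only [e1, e2]
        have f1 : i + j + 1 - p = z1 := by omega
        have f2 : j - i = z2 := by omega
        rw [f1, f2]; exact hd)
  nlinarith [this]

/-- If the box with the first column removed still covers, then `k` is small. -/
lemma count_short (k p : ℕ) (hk : 1 ≤ k) (hp : 1 ≤ p) (α β : ℤ)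
    (h : ∀ G : ℤ, ∃ z1 z2 : ℤ, 1 ≤ z1 + z2 ∧ z1 + z2 < 2 * p ∧ 0 ≤ z1 - z2 ∧ z1 - z2 < 2 * p ∧
      (k : ℤ) ∣ z1 * α + z2 * β - G) :
    k + p ≤ 2 * p ^ 2 := by
  have := count_le k hk p (p - 1) p p
    (fun i j => ((i : ℤ) + j + 1) * α + ((j : ℤ) + 1 - i) * β)
    (fun i j => ((i : ℤ) + j + 1) * α + ((j : ℤ) - i) * β) (by
      intro G
      obtain ⟨z1, z2, h1, h2, h3, h4, hd⟩ := h G
      rcases Int.even_or_odd (z1 - z2) with ⟨i, hi⟩ | ⟨i, hi⟩
      · left
        obtain ⟨j, hj⟩ : ∃ j : ℤ, z1 + z2 = 2 * j + 2 := ⟨z2 + i - 1, by omega⟩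
        refine ⟨i.toNat, by omega, j.toNat, by omega, ?_⟩
        have e1 : (i.toNat : ℤ) = i := Int.toNat_of_nonneg (by omega)
        have e2 : (j.toNat : ℤ) = j := Int.toNat_of_nonneg (by omega)
        simp only [e1, e2]
        have f1 : i + j + 1 = z1 := by omega
        have f2 : j + 1 - i = z2 := by omega
        rw [f1, f2]; exact hd
      · right
        obtain ⟨j, hj⟩ : ∃ j : ℤ, z1 + z2 = 2 * j + 1 := ⟨z2 + i, by omega⟩
        refine ⟨i.toNat, by omega, j.toNat, by omega, ?_⟩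
        have e1 : (i.toNat : ℤ) = i := Int.toNat_of_nonneg (by omega)
        have e2 : (j.toNat : ℤ) = j := Int.toNat_of_nonneg (by omega)
        simp only [e1, e2]
        have f1 : i + j + 1 = z1 := by omega
        have f2 : j - i = z2 := by omega
        rw [f1, f2]; exact hd)
  obtain ⟨q, rfl⟩ : ∃ q, p = q + 1 := ⟨p - 1, by omega⟩
  simp only [Nat.add_sub_cancel] at this
  nlinarith [this]

/-- Translating boxes. -/
lemma Box.translate {k : ℕ} {α β n u0 v0 : ℤ} (h : Box k α β n u0 v0) (a b : ℤ) :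
    Box k α β n (u0 + a + b) (v0 + a - b) := by
  intro G
  obtain ⟨z1, z2, h1, h2, h3, h4, c, hc⟩ := h (G - a * α - b * β)
  refine ⟨z1 + a, z2 + b, by omega, by omega, by omega, by omega, c, ?_⟩
  linear_combination hc

lemma box_all {k : ℕ} {α β n u0 v0 : ℤ} (h : Box k α β n u0 v0) (h' : Box k α β n u0 (v0 + 1))
    (u v : ℤ) : Box k α β n u v := by
  rcases Int.even_or_odd (u - v - (u0 - v0)) with ⟨i, hi⟩ | ⟨i, hi⟩
  · -- a + b = u - u0, a - b = v - v0
    have := h.translate (u - u0 - i) i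
    have e1 : u0 + (u - u0 - i) + i = u := by ring
    have e2 : v0 + (u - u0 - i) - i = v := by omega
    rwa [e1, e2] at this
  · have := h'.translate (u - u0 - (i + 1)) (i + 1)
    have e1 : u0 + (u - u0 - (i + 1)) + (i + 1) = u := by ring
    have e2 : v0 + 1 + (u - u0 - (i + 1)) - (i + 1) = v := by omega
    rwa [e1, e2] at this

/-- Collision lemma. -/
lemma collision (k p : ℕ) (hk : 1 ≤ k) (hp : 1 ≤ p) (α β : ℤ)
    (h0 : Box k α β (2 * p) 0 0) (h1 : Box k α β (2 * p) 1 0) (hbig : 2 * p ^ 2 < k + p) :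
    ∃ c : ℤ, -(p : ℤ) < c ∧ c < p ∧ (k : ℤ) ∣ (p + c) * α + (p - c) * β := by
  by_contra hcon
  push Not at hcon
  have := count_short k p hk hp α β (by
    intro G
    obtain ⟨z1, z2, a1, a2, a3, a4, hd⟩ := h1 G
    by_cases hz : z1 + z2 < 2 * p
    · exact ⟨z1, z2, a1, hz, a3, by omega, hd⟩
    · obtain ⟨w1, w2, b1, b2, b3, b4, hd'⟩ := h0 G
      by_cases hw : 1 ≤ w1 + w2
      · exact ⟨w1, w2, hw, by omega, b3, by omega, hd'⟩
      · exfalso
        refine hcon (z1 - w1 - p) (by omega) (by omega) ?_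
        obtain ⟨c, hc⟩ := hd
        obtain ⟨c', hc'⟩ := hd'
        refine ⟨c - c', ?_⟩
        have hsum : z1 + z2 = 2 * p := by omega
        have hsum' : w1 + w2 = 0 := by omega
        linear_combination hc - hc' - β * hsum + β * hsum')
  omega

/-- Determinants of relations are multiples of `k`. -/
lemma det_dvd {k α β a b x y z w : ℤ} (h1 : k ∣ a * α + b * β - 1) (hx : k ∣ x * α + y * β)
    (hz : k ∣ z * α + w * β) : k ∣ x * w - y * z := by
  obtain ⟨c, hc⟩ := h1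
  obtain ⟨d, hd⟩ := hx
  obtain ⟨e, he⟩ := hz
  refine ⟨a * (w * d - y * e) + b * (x * e - z * d) - (x * w - y * z) * c, ?_⟩
  linear_combination (-(x * w - y * z)) * hc + (a * w - b * z) * hd + (b * x - a * y) * he

/-- The exceptional range. -/
lemma exceptional (k p : ℕ) (hk : 1 ≤ k) (hp : 1 ≤ p) (α β : ℤ)
    (hbox : ∀ u v : ℤ, Box k α β (2 * p) u v) (hbig : 2 * p ^ 2 < k + p) :
    2 ∣ k ∧ (Odd p → ¬ 4 ∣ k) := by
  obtain ⟨c, hc1, hc2, hc⟩ := collision k p hk hp α β (hbox 0 0) (hbox 1 0) hbig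
  have hbox' : ∀ u v : ℤ, Box k α (-β) (2 * p) u v := by
    intro u v G
    obtain ⟨z1, z2, h1, h2, h3, h4, hd⟩ := hbox v u G
    refine ⟨z1, -z2, by omega, by omega, by omega, by omega, ?_⟩
    have : z1 * α + -z2 * -β - G = z1 * α + z2 * β - G := by ring
    rw [this]; exact hd
  obtain ⟨c', hc1', hc2', hc'⟩ := collision k p hk hp α (-β) (hbox' 0 0) (hbox' 1 0) hbig
  have hc'' : (k : ℤ) ∣ (p + c') * α + (c' - p) * β := by
    have : (p + c') * α + (c' - p) * β = (p + c') * α + (p - c') * -β := by ring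
    rw [this]; exact hc'
  obtain ⟨a, b, -, -, -, -, hab⟩ := hbox 0 0 1
  have hdet := det_dvd hab hc hc''
  have hdet' : (k : ℤ) ∣ 2 * (p ^ 2 - c * c') := by
    have : 2 * ((p : ℤ) ^ 2 - c * c') = -((p + c) * (c' - p) - (p - c) * (p + c')) := by ring
    rw [this]
    exact (dvd_neg).mpr hdet
  have hk' : (k : ℤ) = 2 * (p ^ 2 - c * c') := by
    obtain ⟨q, hq⟩ := hdet'
    have hkpos : (0 : ℤ) < k := by exact_mod_cast hk
    have hbig' : 2 * (p : ℤ) ^ 2 < k + p := by exact_mod_cast hbig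
    have hpp : (1 : ℤ) ≤ p := by exact_mod_cast hp
    have b1 : c * c' ≤ (p - 1) ^ 2 := by
      nlinarith [mul_nonneg (show (0:ℤ) ≤ p - 1 - c by omega) (show (0:ℤ) ≤ p - 1 + c' by omega),
        mul_nonneg (show (0:ℤ) ≤ p - 1 + c by omega) (show (0:ℤ) ≤ p - 1 - c' by omega)]
    have b2 : -(c * c') ≤ (p - 1) ^ 2 := by
      nlinarith [mul_nonneg (show (0:ℤ) ≤ p - 1 - c by omega) (show (0:ℤ) ≤ p - 1 - c' by omega),
        mul_nonneg (show (0:ℤ) ≤ p - 1 + c by omega) (show (0:ℤ) ≤ p - 1 + c' by omega)]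
    have q1 : 0 < q := by
      by_contra hq0
      have : (k : ℤ) * q ≤ 0 := mul_nonpos_of_nonneg_of_nonpos hkpos.le (by omega)
      nlinarith
    have q2 : q < 2 := by
      by_contra hq2
      have : (k : ℤ) * 2 ≤ k * q := mul_le_mul_of_nonneg_left (by omega) hkpos.le
      nlinarith
    have : q = 1 := by omega
    rw [this] at hq
    linarith
  refine ⟨?_, ?_⟩
  · have : (2 : ℤ) ∣ k := ⟨_, hk'⟩
    exact_mod_cast this
  · rintro ⟨w, hw⟩ h4
    -- p = 2w+1 odd and k divisible by 4: c c' odd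
    obtain ⟨K4, hK4⟩ := h4
    have hpw : (p : ℤ) = 2 * w + 1 := by exact_mod_cast hw
    have hkK : (k : ℤ) = 4 * K4 := by exact_mod_cast hK4
    have hcc : (p : ℤ) ^ 2 - c * c' = 2 * K4 := by linarith
    have hodd : Odd (c * c') := by
      refine ⟨2 * w ^ 2 + 2 * w - K4, ?_⟩
      rw [hpw] at hcc
      linear_combination -hcc
    rw [Int.odd_mul] at hodd
    obtain ⟨⟨r, hr⟩, ⟨r', hr'⟩⟩ := hodd
    have hkpos : (0 : ℤ) < k := by exact_mod_cast hk
    -- halves of the relations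
    have hX2 : (k : ℤ) ∣ 2 * ((w + r + 1) * α + (w - r) * β) := by
      have : 2 * (((w : ℤ) + r + 1) * α + (w - r) * β) = (p + c) * α + (p - c) * β := by
        rw [hpw, hr]; ring
      rw [this]; exact hc
    have hY2 : (k : ℤ) ∣ 2 * ((w + r' + 1) * α + (r' - w) * β) := by
      have : 2 * (((w : ℤ) + r' + 1) * α + (r' - w) * β) = (p + c') * α + (c' - p) * β := by
        rw [hpw, hr']; ring
      rw [this]; exact hc''
    obtain ⟨x, hx⟩ := hX2
    obtain ⟨y, hy⟩ := hY2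
    have hx' : ((w : ℤ) + r + 1) * α + (w - r) * β = 2 * K4 * x := by
      rw [hkK] at hx; linarith
    have hy' : ((w : ℤ) + r' + 1) * α + (r' - w) * β = 2 * K4 * y := by
      rw [hkK] at hy; linarith
    -- any primitive combination divisible by k gives a contradiction
    have hcontra : ¬ ((k : ℤ) ∣ 2 * K4) := by
      rintro ⟨q, hq⟩
      rw [hkK] at hq
      have hKpos : (0 : ℤ) < K4 := by omega
      have : (1 : ℤ) = 2 * q := by
        have : (2 * (K4 : ℤ)) * 1 = (2 * K4) * (2 * q) := by linarith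
        exact mul_left_cancel₀ (by positivity) this
      omega
    have hdet2 : 2 * (((w : ℤ) + r + 1) * (r' - w) - (w - r) * (w + r' + 1)) = - (2 * K4) := by
      rw [hpw, hr, hr'] at hcc
      linear_combination -hcc
    rcases Int.even_or_odd x with ⟨x', hx'2⟩ | ⟨x', hx'2⟩
    · -- k | X
      have hX : (k : ℤ) ∣ (w + r + 1) * α + (w - r) * β := ⟨x', by rw [hx', hkK, hx'2]; ring⟩
      have hY : (k : ℤ) ∣ (2 * (w + r' + 1)) * α + (2 * (r' - w)) * β :=
        ⟨y, by rw [← hy]; ring⟩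
      have := det_dvd hab hX hY
      apply hcontra
      have e : ((w : ℤ) + r + 1) * (2 * (r' - w)) - (w - r) * (2 * (w + r' + 1)) = -(2 * K4) := by
        rw [← hdet2]; ring
      rw [e] at this
      exact (dvd_neg).mp this
    · rcases Int.even_or_odd y with ⟨y', hy'2⟩ | ⟨y', hy'2⟩
      · have hY : (k : ℤ) ∣ (w + r' + 1) * α + (r' - w) * β := ⟨y', by rw [hy', hkK, hy'2]; ring⟩
        have hX : (k : ℤ) ∣ (2 * (w + r + 1)) * α + (2 * (w - r)) * β :=
          ⟨x, by rw [← hx]; ring⟩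
        have := det_dvd hab hX hY
        apply hcontra
        have e : (2 * ((w : ℤ) + r + 1)) * (r' - w) - (2 * (w - r)) * (w + r' + 1) = -(2 * K4) := by
          rw [← hdet2]; ring
        rw [e] at this
        exact (dvd_neg).mp this
      · have hXY : (k : ℤ) ∣ ((w + r + 1) + (w + r' + 1)) * α + ((w - r) + (r' - w)) * β := by
          refine ⟨x' + y' + 1, ?_⟩
          have : (((w : ℤ) + r + 1) + (w + r' + 1)) * α + ((w - r) + (r' - w)) * β
              = 2 * K4 * x + 2 * K4 * y := by linear_combination hx' + hy'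
          rw [this, hkK, hx'2, hy'2]; ring
        have hY : (k : ℤ) ∣ (2 * (w + r' + 1)) * α + (2 * (r' - w)) * β :=
          ⟨y, by rw [← hy]; ring⟩
        have := det_dvd hab hXY hY
        apply hcontra
        have e : (((w : ℤ) + r + 1) + (w + r' + 1)) * (2 * (r' - w)) -
            ((w - r) + (r' - w)) * (2 * (w + r' + 1)) = -(2 * K4) := by
          rw [← hdet2]; ring
        rw [e] at this
        exact (dvd_neg).mp this

/-- The walk lemma. -/
lemma walk (K t n N u0 v0 : ℤ) (hK : 0 < K) (ht : 0 < t) (htn : t ≤ n) (hN : 1 ≤ N)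
    (hr : (u0 + n - 1 - t * v0) % K ≤ t * (N - 1) + n - 1) :
    ∃ i j : ℤ, v0 ≤ j ∧ j < v0 + N ∧ u0 ≤ K * i + t * j ∧ K * i + t * j < u0 + n := by
  set R := u0 + n - 1 - t * v0 with hR
  have hr0 : 0 ≤ R % K := Int.emod_nonneg _ hK.ne'
  have hdiv : K * (R / K) + R % K = R := Int.mul_ediv_add_emod R K
  by_cases hcase : (R % K) / t ≤ N - 1
  · refine ⟨R / K, v0 + (R % K) / t, ?_, by omega, ?_, ?_⟩
    · have : 0 ≤ (R % K) / t := Int.ediv_nonneg hr0 ht.le
      omega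
    · have h1 : (R % K) % t < t := Int.emod_lt_of_pos _ ht
      have h2 : t * ((R % K) / t) + (R % K) % t = R % K := Int.mul_ediv_add_emod _ t
      have : K * (R / K) + t * (v0 + (R % K) / t) = u0 + n - 1 - (R % K) % t := by
        linear_combination hdiv + hR + h2
      rw [this]
      linarith
    · have h1 : 0 ≤ (R % K) % t := Int.emod_nonneg _ ht.ne'
      have h2 : t * ((R % K) / t) + (R % K) % t = R % K := Int.mul_ediv_add_emod _ t
      have : K * (R / K) + t * (v0 + (R % K) / t) = u0 + n - 1 - (R % K) % t := by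
        linear_combination hdiv + hR + h2
      rw [this]
      linarith
  · have hge : N ≤ (R % K) / t := by omega
    have hge' : t * N ≤ R % K := by
      have h2 : t * ((R % K) / t) ≤ R % K := Int.mul_ediv_self_le ht.ne'
      exact le_trans (mul_le_mul_of_nonneg_left hge ht.le) h2
    refine ⟨R / K, v0 + (N - 1), by omega, by omega, ?_, ?_⟩
    · have : K * (R / K) + t * (v0 + (N - 1)) = u0 + n - 1 - (R % K - t * (N - 1)) := by
        linear_combination hdiv + hR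
      rw [this]; linarith
    · have : K * (R / K) + t * (v0 + (N - 1)) = u0 + n - 1 - (R % K - t * (N - 1)) := by
        linear_combination hdiv + hR
      rw [this]; nlinarith

end Pool.Agent.H.MP_7e2005_co
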