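import Mathlib
import Pool.Agent.H.MP_7e2005_co.Core

namespace Pool.Agent.H.MP_7e2005_co

/-- The lattice `{k ∣ z1 A + z2 B}` meets the box with corner `(u, v)` and side `n`. -/
def LBox (k : ℕ) (A B n u v : ℤ) : Prop :=
  ∃ z1 z2 : ℤ, u ≤ z1 + z2 ∧ z1 + z2 < u + n ∧ v ≤ z1 - z2 ∧ z1 - z2 < v + n ∧
    (k : ℤ) ∣ z1 * A + z2 * B

lemma IntSpan.mono {m k : ℕ} {s s' : ℤ} (h : IntSpan m k s) (hs : s ≤ s') : IntSpan m k s' := by
  obtain ⟨A1, A2, B1, B2, h⟩ := h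
  refine ⟨A1, A2, B1, B2, fun G1 G2 => ?_⟩
  obtain ⟨x, y, h1, h2⟩ := h G1 G2
  exact ⟨x, y, h1.trans hs, h2⟩

lemma suf3_even (k : ℕ) (p A B : ℤ) (hAB : IsCoprime A B)
    (h : ∀ u v, LBox k A B (2 * p) u v) : IntSpan 3 k (3 * p) := by
  refine suf 3 k _ A B hAB (fun x y => ?_)
  obtain ⟨z1, z2, h1, h2, h3, h4, hd⟩ := h (-((3 * p + (x + y)) / 3)) (-((3 * p + (x - y)) / 3))
  refine ⟨z1, z2, ?_, hd⟩
  rw [abs_four]
  push_cast
  refine ⟨?_, ?_, ?_, ?_⟩ <;> omega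

lemma suf3_odd (k : ℕ) (p A B : ℤ) (hAB : IsCoprime A B)
    (h : ∀ u v, LBox k A B (2 * p + 1) u v) : IntSpan 3 k (3 * p + 1) := by
  refine suf 3 k _ A B hAB (fun x y => ?_)
  obtain ⟨z1, z2, h1, h2, h3, h4, hd⟩ :=
    h (-((3 * p + 1 + (x + y)) / 3)) (-((3 * p + 1 + (x - y)) / 3))
  refine ⟨z1, z2, ?_, hd⟩
  rw [abs_four]
  push_cast
  refine ⟨?_, ?_, ?_, ?_⟩ <;> omega

lemma suf4_even (k : ℕ) (p A B : ℤ) (hAB : IsCoprime A B)
    (h : ∀ u v, LBox k A B (2 * p) u v) : IntSpan 4 k (4 * p) := by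
  refine suf 4 k _ A B hAB (fun x y => ?_)
  obtain ⟨z1, z2, h1, h2, h3, h4, hd⟩ := h (-((4 * p + (x + y)) / 4)) (-((4 * p + (x - y)) / 4))
  refine ⟨z1, z2, ?_, hd⟩
  rw [abs_four]
  push_cast
  refine ⟨?_, ?_, ?_, ?_⟩ <;> omega

lemma suf4_odd (k : ℕ) (p A B : ℤ) (hAB : IsCoprime A B)
    (h : ∀ u v, LBox k A B (2 * p + 1) u v) : IntSpan 4 k (4 * p + 2) := by
  refine suf 4 k _ A B hAB (fun x y => ?_)
  obtain ⟨z1, z2, h1, h2, h3, h4, hd⟩ :=
    h (-((4 * p + 2 + (x + y)) / 4)) (-((4 * p + 2 + (x - y)) / 4))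
  refine ⟨z1, z2, ?_, hd⟩
  rw [abs_four]
  push_cast
  refine ⟨?_, ?_, ?_, ?_⟩ <;> omega

/-- For `s = 3p+2`, boxes whose corner coordinates have equal parity are enough. -/
lemma suf3_ball (k : ℕ) (p A B : ℤ) (hAB : IsCoprime A B)
    (h : ∀ u v, (u - v) % 2 = 0 → LBox k A B (2 * p + 1) u v) : IntSpan 3 k (3 * p + 2) := by
  refine suf 3 k _ A B hAB (fun x y => ?_)
  -- corner candidates: any u with 3u + X ≥ -(3p+2) and 3(u + 2p) + X ≤ 3p+2
  have hcorner : ∃ u v : ℤ, (u - v) % 2 = 0 ∧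
      -(3 * p + 2) ≤ 3 * u + (x + y) ∧ 3 * (u + 2 * p) + (x + y) ≤ 3 * p + 2 ∧
      -(3 * p + 2) ≤ 3 * v + (x - y) ∧ 3 * (v + 2 * p) + (x - y) ≤ 3 * p + 2 := by
    by_cases hX : (x + y) % 3 = 0
    · by_cases hY : (x - y) % 3 = 0
      · refine ⟨-((x + y) / 3) - p, -((x - y) / 3) - p, ?_, ?_, ?_, ?_, ?_⟩ <;> omega
      · by_cases hpar : (-((x + y) / 3) - p - (-((3 * p + 2 + (x - y)) / 3))) % 2 = 0
        · refine ⟨-((x + y) / 3) - p, -((3 * p + 2 + (x - y)) / 3), hpar, ?_, ?_, ?_, ?_⟩ <;> omega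
        · refine ⟨-((x + y) / 3) - p, -((3 * p + 2 + (x - y)) / 3) + 1, ?_, ?_, ?_, ?_, ?_⟩ <;>
            omega
    · by_cases hpar : ((-((3 * p + 2 + (x + y)) / 3)) - (-((3 * p + 2 + (x - y)) / 3))) % 2 = 0
      · refine ⟨-((3 * p + 2 + (x + y)) / 3), -((3 * p + 2 + (x - y)) / 3), hpar,
          ?_, ?_, ?_, ?_⟩ <;> omega
      · refine ⟨-((3 * p + 2 + (x + y)) / 3) + 1, -((3 * p + 2 + (x - y)) / 3), ?_,
          ?_, ?_, ?_, ?_⟩ <;> omega
  obtain ⟨u, v, hpar, c1, c2, c3, c4⟩ := hcorner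
  obtain ⟨z1, z2, h1, h2, h3, h4, hd⟩ := h u v hpar
  refine ⟨z1, z2, ?_, hd⟩
  rw [abs_four]
  push_cast
  refine ⟨?_, ?_, ?_, ?_⟩ <;> omega

/-- `k ≤ 2p²+2p`: all boxes of side `2p+1` are hit. -/
lemma lbox_odd (k : ℕ) (hk : 1 ≤ k) (p : ℤ) (hp : 0 ≤ p) (hkp : (k : ℤ) ≤ 2 * p ^ 2 + 2 * p)
    (u v : ℤ) : LBox k (-p) (p + 1) (2 * p + 1) u v := by
  have hkpos : (0 : ℤ) < k := by exact_mod_cast hk
  obtain ⟨i, j, h1, h2, h3, h4⟩ := walk (2 * k) (2 * p + 1) (2 * p + 1) (2 * p + 1) u v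
    (by linarith) (by linarith) le_rfl (by linarith) (by
      have := Int.emod_lt_of_pos (u + (2 * p + 1) - 1 - (2 * p + 1) * v)
        (show (0 : ℤ) < 2 * k by linarith)
      nlinarith)
  refine ⟨k * i + (p + 1) * j, k * i + p * j, ?_, ?_, ?_, ?_, i, ?_⟩
  · linarith
  · linarith
  · linarith
  · linarith
  · ring

/-- `k = 2p²+2p+1`: boxes of side `2p+1` of even corner are hit. -/
lemma lbox_ball (k : ℕ) (p : ℤ) (hp : 0 ≤ p) (hkp : (k : ℤ) = 2 * p ^ 2 + 2 * p + 1)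
    (u v : ℤ) (huv : (u - v) % 2 = 0) : LBox k (-p) (p + 1) (2 * p + 1) u v := by
  have hkpos : (0 : ℤ) < k := by rw [hkp]; positivity
  obtain ⟨i, j, h1, h2, h3, h4⟩ := walk (2 * k) (2 * p + 1) (2 * p + 1) (2 * p + 1) u v
    (by linarith) (by linarith) le_rfl (by linarith) (by
      have hlt := Int.emod_lt_of_pos (u + (2 * p + 1) - 1 - (2 * p + 1) * v)
        (show (0 : ℤ) < 2 * k by linarith)
      have hpar : ((u + (2 * p + 1) - 1 - (2 * p + 1) * v) % (2 * k)) % 2 = 0 := by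
        rw [Int.emod_emod_of_dvd _ (Dvd.intro _ rfl)]
        have : u + (2 * p + 1) - 1 - (2 * p + 1) * v = (u - v) + 2 * (p - p * v) := by ring
        rw [this, Int.add_mul_emod_self_left]
        exact huv
      have : (u + (2 * p + 1) - 1 - (2 * p + 1) * v) % (2 * k) ≤ 2 * k - 2 := by omega
      nlinarith)
  refine ⟨k * i + (p + 1) * j, k * i + p * j, ?_, ?_, ?_, ?_, i, ?_⟩
  · linarith
  · linarith
  · linarith
  · linarith
  · ring

/-- `k ≤ 2p²-p`: all boxes of side `2p` are hit. -/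
lemma lbox_even (k : ℕ) (hk : 1 ≤ k) (p : ℤ) (hp : 1 ≤ p) (hkp : (k : ℤ) + p ≤ 2 * p ^ 2)
    (u v : ℤ) : LBox k (-(p - 1)) p (2 * p) u v := by
  have hkpos : (0 : ℤ) < k := by exact_mod_cast hk
  obtain ⟨i, j, h1, h2, h3, h4⟩ := walk (2 * k) (2 * p - 1) (2 * p) (2 * p) u v
    (by linarith) (by linarith) (by linarith) (by linarith) (by
      have := Int.emod_lt_of_pos (u + (2 * p) - 1 - (2 * p - 1) * v)
        (show (0 : ℤ) < 2 * k by linarith)
      nlinarith)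
  refine ⟨k * i + p * j, k * i + (p - 1) * j, ?_, ?_, ?_, ?_, i, ?_⟩
  · linarith
  · linarith
  · linarith
  · linarith
  · ring

/-- `p` even, `k ≤ 2p²` even. -/
lemma lbox_even_even (k : ℕ) (hk : 1 ≤ k) (κ : ℤ) (hκ : (k : ℤ) = 2 * κ) (p : ℤ) (hp : 1 ≤ p)
    (hkp : (k : ℤ) ≤ 2 * p ^ 2) (u v : ℤ) : LBox k (1 - p) (p + 1) (2 * p) u v := by
  have hkpos : (0 : ℤ) < k := by exact_mod_cast hk
  obtain ⟨i, j, h1, h2, h3, h4⟩ := walk k (2 * p) (2 * p) p u ((v + 1) / 2)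
    (by linarith) (by linarith) (by linarith) (by linarith) (by
      have := Int.emod_lt_of_pos (u + (2 * p) - 1 - (2 * p) * ((v + 1) / 2)) hkpos
      nlinarith)
  refine ⟨κ * i + (p + 1) * j, κ * i + (p - 1) * j, ?_, ?_, ?_, ?_, i, ?_⟩
  · have : κ * i + (p + 1) * j + (κ * i + (p - 1) * j) = k * i + 2 * p * j := by rw [hκ]; ring
    linarith
  · have : κ * i + (p + 1) * j + (κ * i + (p - 1) * j) = k * i + 2 * p * j := by rw [hκ]; ring
    linarith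
  · have : κ * i + (p + 1) * j - (κ * i + (p - 1) * j) = 2 * j := by ring
    rw [this]; omega
  · have : κ * i + (p + 1) * j - (κ * i + (p - 1) * j) = 2 * j := by ring
    rw [this]; omega
  · rw [hκ]; ring

/-- `p = 2w+1` odd, `k = 2p² - 4 i₀`. -/
lemma lbox_even_odd (k : ℕ) (hk : 1 ≤ k) (p w i0 : ℤ) (hw : 0 ≤ w) (hpw : p = 2 * w + 1)
    (hi0 : 0 ≤ i0) (hi0' : 4 * i0 < p)
    (hkp : (k : ℤ) = 2 * p ^ 2 - 4 * i0) (u v : ℤ) :
    LBox k (2 - p) (p + 2) (2 * p) u v := by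
  have hkpos : (0 : ℤ) < k := by exact_mod_cast hk
  have hp : 1 ≤ p := by omega
  set κ : ℤ := p ^ 2 - 2 * i0 with hκ
  set τ : ℤ := p * (w + 1) - i0 with hτ
  set j0 : ℤ := (v + 1) / 2 with hj0
  set R : ℤ := u + 2 * p - 1 - 2 * τ * j0 with hR
  have hr0 : 0 ≤ R % k := Int.emod_nonneg _ hkpos.ne'
  have hrk : R % k < k := Int.emod_lt_of_pos _ hkpos
  have hdiv : k * (R / k) + R % k = R := Int.mul_ediv_add_emod R k
  -- 4τ = k + 2p
  have h4τ : 4 * τ = k + 2 * p := by rw [hτ, hkp, hpw]; ring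
  have h2p : (0 : ℤ) < 2 * p := by linarith
  -- generic verification
  have main : ∀ i j : ℤ, j0 ≤ j → j < j0 + p → u ≤ k * i + 2 * τ * j →
      k * i + 2 * τ * j < u + 2 * p → LBox k (2 - p) (p + 2) (2 * p) u v := by
    intro i j h1 h2 h3 h4
    refine ⟨κ * i + (τ + 1) * j, κ * i + (τ - 1) * j, ?_, ?_, ?_, ?_, 2 * i + j, ?_⟩
    · have : κ * i + (τ + 1) * j + (κ * i + (τ - 1) * j) = k * i + 2 * τ * j := by
        rw [hkp, hκ]; ring
      linarith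
    · have : κ * i + (τ + 1) * j + (κ * i + (τ - 1) * j) = k * i + 2 * τ * j := by
        rw [hkp, hκ]; ring
      linarith
    · have : κ * i + (τ + 1) * j - (κ * i + (τ - 1) * j) = 2 * j := by ring
      rw [this]; omega
    · have : κ * i + (τ + 1) * j - (κ * i + (τ - 1) * j) = 2 * j := by ring
      rw [this]; omega
    · have e : (κ * i + (τ + 1) * j) * (2 - p) + (κ * i + (τ - 1) * j) * (p + 2)
          = 4 * κ * i + (4 * τ - 2 * p) * j := by ring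
      rw [e, h4τ, hkp, hκ]; ring
  by_cases hcase : R % k < p ^ 2 + p
  · set a := (R % k) / (2 * p) with ha
    have ha1 : 2 * p * a + (R % k) % (2 * p) = R % k := Int.mul_ediv_add_emod _ _
    have ha2 : 0 ≤ (R % k) % (2 * p) := Int.emod_nonneg _ h2p.ne'
    have ha3 : (R % k) % (2 * p) < 2 * p := Int.emod_lt_of_pos _ h2p
    have ha0 : 0 ≤ a := Int.ediv_nonneg hr0 h2p.le
    have haw : a ≤ w := by
      by_contra hcon
      have h1 : 2 * p * (w + 1) ≤ 2 * p * a := mul_le_mul_of_nonneg_left (by omega) h2p.le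
      have h2 : 2 * p * (w + 1) = p ^ 2 + p := by rw [hpw]; ring
      linarith
    have e : k * (R / k - a) + 2 * τ * (j0 + 2 * a) = u + 2 * p - 1 - (R % k) % (2 * p) := by
      linear_combination hdiv + hR + a * h4τ + ha1
    refine main (R / k - a) (j0 + 2 * a) (by omega) (by omega) ?_ ?_
    · rw [e]; linarith
    · rw [e]; linarith
  · have hT : 2 * τ = p ^ 2 + p - 2 * i0 := by rw [hτ, hpw]; ring
    set r' := R % k - 2 * τ with hr'
    have hr'0 : 0 ≤ r' := by rw [hr', hT]; linarith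
    set a := r' / (2 * p) with ha
    have ha1 : 2 * p * a + r' % (2 * p) = r' := Int.mul_ediv_add_emod _ _
    have ha2 : 0 ≤ r' % (2 * p) := Int.emod_nonneg _ h2p.ne'
    have ha3 : r' % (2 * p) < 2 * p := Int.emod_lt_of_pos _ h2p
    have ha0 : 0 ≤ a := Int.ediv_nonneg hr'0 h2p.le
    have haw : a < w := by
      by_contra hcon
      have h1 : 2 * p * w ≤ 2 * p * a := mul_le_mul_of_nonneg_left (by omega) h2p.le
      have h2 : 2 * p * w = p ^ 2 - p := by rw [hpw]; ring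
      have h3 : r' < p ^ 2 - p := by
        rw [hr', hT]
        have : R % k < 2 * p ^ 2 - 4 * i0 := by rw [← hkp]; exact hrk
        linarith
      linarith
    have e : k * (R / k - a) + 2 * τ * (j0 + 1 + 2 * a) = u + 2 * p - 1 - r' % (2 * p) := by
      linear_combination hdiv + hR + a * h4τ + ha1 + hr'
    refine main (R / k - a) (j0 + 1 + 2 * a) (by omega) (by omega) ?_ ?_
    · rw [e]; linarith
    · rw [e]; linarith

end Pool.Agent.H.MP_7e2005_co
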