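import Mathlib
import Pool.Agent.H.MP_7e2005_co.Suf

namespace Pool.Agent.H.MP_7e2005_co

/-- The set of admissible indices attached to `2p × 2p` boxes. -/
lemma even_case_nec (k p : ℕ) (hk : 1 ≤ k) (α β : ℤ)
    (h1 : Box k α β (2 * p) (-p) (-p)) (h2 : Box k α β (2 * p) (-p) (-p + 1)) :
    k + p ≤ 2 * p ^ 2 ∨ (k ≤ 2 * p ^ 2 ∧ 2 ∣ k ∧ (Odd p → ¬ 4 ∣ k)) := by
  have hle := count_even k p hk α β h1
  by_cases hsmall : k + p ≤ 2 * p ^ 2
  · exact Or.inl hsmall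
  · right
    have hp : 1 ≤ p := by
      rcases Nat.eq_zero_or_pos p with h0 | h0
      · subst h0; simp at hle; omega
      · exact h0
    exact ⟨hle, exceptional k p hk hp α β (fun u v => box_all h1 h2 u v) (by omega)⟩

lemma coprime_odd (w : ℤ) : IsCoprime (2 - (2 * w + 1)) (2 * w + 1 + 2) := by
  rcases Int.even_or_odd w with ⟨x, hx⟩ | ⟨x, hx⟩
  · refine ⟨1 + x, x, ?_⟩
    rw [hx]; ring
  · refine ⟨-1 - x, -x, ?_⟩
    rw [hx]; ring

lemma even_case_suf (k p : ℕ) (hk : 1 ≤ k)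
    (h : k + p ≤ 2 * p ^ 2 ∨ (k ≤ 2 * p ^ 2 ∧ 2 ∣ k ∧ (Odd p → ¬ 4 ∣ k))) :
    ∃ A B : ℤ, IsCoprime A B ∧ ∀ u v, LBox k A B (2 * p) u v := by
  have hp : 1 ≤ p := by
    rcases Nat.eq_zero_or_pos p with h0 | h0
    · subst h0; simp at h; omega
    · exact h0
  have hpZ : (1 : ℤ) ≤ p := by exact_mod_cast hp
  by_cases hsmall : k + p ≤ 2 * p ^ 2
  · refine ⟨-((p : ℤ) - 1), p, ⟨1, 1, by ring⟩, fun u v => ?_⟩
    exact lbox_even k hk p hpZ (by exact_mod_cast hsmall) u v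
  · obtain ⟨hle, h2, h4⟩ := h.resolve_left hsmall
    have hleZ : (k : ℤ) ≤ 2 * (p : ℤ) ^ 2 := by exact_mod_cast hle
    rcases Nat.even_or_odd p with ⟨w, hw⟩ | ⟨w, hw⟩
    · obtain ⟨κ, hκ⟩ := h2
      refine ⟨1 - (p : ℤ), p + 1, ⟨1 + w, w, ?_⟩, fun u v => ?_⟩
      · rw [hw]; push_cast; ring
      · exact lbox_even_even k hk κ (by exact_mod_cast hκ) p hpZ hleZ u v
    · have h4' := h4 ⟨w, hw⟩
      have hp2 : p ^ 2 % 2 = 1 := by
        rw [hw, Nat.pow_mod]; norm_num [Nat.add_mod]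
      obtain ⟨i0, hi0⟩ : ∃ i0 : ℕ, 2 * p ^ 2 = k + 4 * i0 := ⟨(2 * p ^ 2 - k) / 4, by omega⟩
      have hi0Z : (k : ℤ) = 2 * (p : ℤ) ^ 2 - 4 * i0 := by
        have : 2 * (p : ℤ) ^ 2 = k + 4 * i0 := by exact_mod_cast hi0
        linarith
      refine ⟨2 - (p : ℤ), p + 2, ?_, fun u v => ?_⟩
      · have := coprime_odd w
        have e : (p : ℤ) = 2 * w + 1 := by exact_mod_cast hw
        rw [e]; exact this
      · exact lbox_even_odd k hk p w i0 (by positivity) (by exact_mod_cast hw) (by positivity)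
          (by omega) hi0Z u v

theorem main3 (s k : ℕ) (hk : 1 ≤ k) :
    IntSpan 3 k s ↔
      (∃ p, s = 3 * p ∧ (k + p ≤ 2 * p ^ 2 ∨ (k ≤ 2 * p ^ 2 ∧ 2 ∣ k ∧ (Odd p → ¬ 4 ∣ k)))) ∨
      (∃ p, s = 3 * p + 1 ∧ k ≤ 2 * p ^ 2 + 2 * p) ∨
      (∃ p, s = 3 * p + 2 ∧ k ≤ 2 * p ^ 2 + 2 * p + 1) := by
  constructor
  · intro h
    obtain ⟨α, β, h⟩ := nec 3 k s (by norm_num) h
    push_cast at h
    have hs : s = 3 * (s / 3) ∨ s = 3 * (s / 3) + 1 ∨ s = 3 * (s / 3) + 2 := by omega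
    set p := s / 3 with hp
    rcases hs with hs | hs | hs
    · left
      refine ⟨p, hs, even_case_nec k p hk α β ?_ ?_⟩
      · intro G
        obtain ⟨z1, z2, hz, hd⟩ := h 1 0 G
        rw [abs_four] at hz
        exact ⟨z1, z2, by omega, by omega, by omega, by omega, hd⟩
      · intro G
        obtain ⟨z1, z2, hz, hd⟩ := h 0 1 G
        rw [abs_four] at hz
        exact ⟨z1, z2, by omega, by omega, by omega, by omega, hd⟩
    · right; left
      refine ⟨p, hs, count_odd k p hk α β ?_⟩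
      intro G
      obtain ⟨z1, z2, hz, hd⟩ := h 1 1 G
      rw [abs_four] at hz
      exact ⟨z1, z2, by omega, by omega, by omega, by omega, hd⟩
    · right; right
      refine ⟨p, hs, count_ball k p hk α β ?_⟩
      intro G
      obtain ⟨z1, z2, hz, hd⟩ := h 0 0 G
      rw [abs_four] at hz
      exact ⟨z1, z2, by omega, by omega, by omega, by omega, hd⟩
  · rintro (⟨p, hs, h⟩ | ⟨p, hs, h⟩ | ⟨p, hs, h⟩)
    · obtain ⟨A, B, hAB, hbox⟩ := even_case_suf k p hk h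
      have := suf3_even k p A B hAB hbox
      rw [hs]; push_cast; exact this
    · have hleZ : (k : ℤ) ≤ 2 * (p : ℤ) ^ 2 + 2 * p := by exact_mod_cast h
      have := suf3_odd k p (-p) (p + 1) ⟨1, 1, by ring⟩
        (fun u v => lbox_odd k hk p (by positivity) hleZ u v)
      rw [hs]; push_cast; exact this
    · rw [hs]; push_cast
      rcases Nat.lt_or_ge k (2 * p ^ 2 + 2 * p + 1) with hlt | hge
      · have hleZ : (k : ℤ) ≤ 2 * (p : ℤ) ^ 2 + 2 * p := by
          have : k ≤ 2 * p ^ 2 + 2 * p := by omega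
          exact_mod_cast this
        have := suf3_odd k p (-p) (p + 1) ⟨1, 1, by ring⟩
          (fun u v => lbox_odd k hk p (by positivity) hleZ u v)
        exact this.mono (by linarith)
      · have heq : k = 2 * p ^ 2 + 2 * p + 1 := le_antisymm h hge
        have heqZ : (k : ℤ) = 2 * (p : ℤ) ^ 2 + 2 * p + 1 := by exact_mod_cast heq
        exact suf3_ball k p (-p) (p + 1) ⟨1, 1, by ring⟩
          (fun u v huv => lbox_ball k p (by positivity) heqZ u v huv)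

theorem main4 (s k : ℕ) (hk : 1 ≤ k) :
    IntSpan 4 k s ↔
      (∃ q, (s = 4 * q ∨ s = 4 * q + 1) ∧
        (k + q ≤ 2 * q ^ 2 ∨ (k ≤ 2 * q ^ 2 ∧ 2 ∣ k ∧ (Odd q → ¬ 4 ∣ k)))) ∨
      (∃ q, (s = 4 * q + 2 ∨ s = 4 * q + 3) ∧ k ≤ 2 * q ^ 2 + 2 * q) := by
  constructor
  · intro h
    obtain ⟨α, β, h⟩ := nec 4 k s (by norm_num) h
    push_cast at h
    have hs : (s = 4 * (s / 4) ∨ s = 4 * (s / 4) + 1) ∨
      (s = 4 * (s / 4) + 2 ∨ s = 4 * (s / 4) + 3) := by omega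
    set p := s / 4 with hp
    rcases hs with hs | hs
    · left
      refine ⟨p, hs, even_case_nec k p hk α β ?_ ?_⟩
      · intro G
        obtain ⟨z1, z2, hz, hd⟩ := h 2 0 G
        rw [abs_four] at hz
        exact ⟨z1, z2, by omega, by omega, by omega, by omega, hd⟩
      · intro G
        obtain ⟨z1, z2, hz, hd⟩ := h 0 2 G
        rw [abs_four] at hz
        exact ⟨z1, z2, by omega, by omega, by omega, by omega, hd⟩
    · right
      refine ⟨p, hs, count_odd k p hk α β ?_⟩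
      intro G
      obtain ⟨z1, z2, hz, hd⟩ := h 2 2 G
      rw [abs_four] at hz
      exact ⟨z1, z2, by omega, by omega, by omega, by omega, hd⟩
  · rintro (⟨p, hs, h⟩ | ⟨p, hs, h⟩)
    · obtain ⟨A, B, hAB, hbox⟩ := even_case_suf k p hk h
      have := suf4_even k p A B hAB hbox
      exact this.mono (by omega)
    · have hleZ : (k : ℤ) ≤ 2 * (p : ℤ) ^ 2 + 2 * p := by exact_mod_cast h
      have := suf4_odd k p (-p) (p + 1) ⟨1, 1, by ring⟩
        (fun u v => lbox_odd k hk p (by positivity) hleZ u v)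
      exact this.mono (by omega)

end Pool.Agent.H.MP_7e2005_co
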